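import Pool.Agent.L5helper2.RO.Defs3
import Pool.Agent.L5helper2.RO.Asm

set_option autoImplicit false

/-! Random orders (helper2): the lower bound over the good exponents. -/

namespace Pool.Agent.L5helper84.RO

open Finset Filter
open scoped Topology
open Pool.Agent.L5helper2.RO

open Classical in
/-- the good exponents of a block -/
noncomputable def GI (b : ℕ) (C0 : ℝ) (y : ℕ) : Finset ℕ := (PR y).filter (fun n => n ∈ Sg b C0)

open Classical in
/-- at least half of the block is good -/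
lemma card_GI (b : ℕ) (C0 : ℝ) (hCNT : ∀ A : ℕ, ∃ C : ℝ, ∀ x : ℕ, 2 ≤ x →
      (((Icc 1 x).filter (fun n => (n.Prime ∧ n ≠ 2) ∧ ¬ (P b n ≤ C0 * Real.log n / n))).card : ℝ) ≤
        C * x / Real.log x ^ A) :
    ∃ c : ℝ, 0 < c ∧ ∀ᶠ y : ℕ in atTop, c * y / Real.log y ≤ ((GI b C0 y).card : ℝ) := by
  obtain ⟨c1, hc1, hM⟩ := card_PR
  obtain ⟨C, hC⟩ := hCNT 2
  refine ⟨c1 / 2, by positivity, ?_⟩
  have hlog : Tendsto (fun y : ℕ => Real.log (y : ℝ)) atTop atTop :=
    Real.tendsto_log_atTop.comp tendsto_natCast_atTop_atTop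
  filter_upwards [hM, eventually_ge_atTop 3, hlog.eventually_ge_atTop (4 * (|C| + 1) / c1)] with y hM hy hly
  have hy0 : (0 : ℝ) < y := by exact_mod_cast (by omega : 0 < y)
  have hly0 : 0 < Real.log (y : ℝ) := Real.log_pos (by exact_mod_cast (by omega : 1 < y))
  have h1 := hC (2 * y) (by omega)
  have h2 : (PR y).card ≤ (GI b C0 y).card +
      ((Icc 1 (2 * y)).filter (fun n => (n.Prime ∧ n ≠ 2) ∧ ¬ (P b n ≤ C0 * Real.log n / n))).card := by
    rw [← Finset.card_filter_add_card_filter_not (s := PR y) (fun n => n ∈ Sg b C0)]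
    apply Nat.add_le_add
    · exact le_of_eq rfl
    · apply Finset.card_le_card
      intro n hn
      rw [mem_filter] at hn
      have h3 := hn.1
      unfold PR at h3
      rw [mem_filter, mem_Ioc] at h3
      have h4 : n.Prime ∧ n ≠ 2 := ⟨h3.2, by omega⟩
      rw [mem_filter, mem_Icc]
      refine ⟨⟨by omega, h3.1.2⟩, h4, fun h5 => hn.2 ⟨h4, h5⟩⟩
  have h2' : ((PR y).card : ℝ) ≤ ((GI b C0 y).card : ℝ) +
      (((Icc 1 (2 * y)).filter (fun n => (n.Prime ∧ n ≠ 2) ∧ ¬ (P b n ≤ C0 * Real.log n / n))).card : ℝ) := by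
    exact_mod_cast h2
  have h3 : Real.log (y : ℝ) ≤ Real.log ((2 * y : ℕ) : ℝ) :=
    Real.log_le_log hy0 (by exact_mod_cast (by omega : y ≤ 2 * y))
  have h4 : C * ((2 * y : ℕ) : ℝ) / Real.log ((2 * y : ℕ) : ℝ) ^ 2 ≤ c1 / 2 * y / Real.log y := by
    have h5 : C * ((2 * y : ℕ) : ℝ) / Real.log ((2 * y : ℕ) : ℝ) ^ 2 ≤
        (|C| + 1) * ((2 * y : ℕ) : ℝ) / Real.log (y : ℝ) ^ 2 := by
      have h6 : C * ((2 * y : ℕ) : ℝ) ≤ (|C| + 1) * ((2 * y : ℕ) : ℝ) :=
        mul_le_mul_of_nonneg_right (by linarith [le_abs_self C]) (Nat.cast_nonneg _)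
      have h7 : Real.log (y : ℝ) ^ 2 ≤ Real.log ((2 * y : ℕ) : ℝ) ^ 2 := pow_le_pow_left₀ hly0.le h3 2
      calc C * ((2 * y : ℕ) : ℝ) / Real.log ((2 * y : ℕ) : ℝ) ^ 2
          ≤ (|C| + 1) * ((2 * y : ℕ) : ℝ) / Real.log ((2 * y : ℕ) : ℝ) ^ 2 :=
            div_le_div_of_nonneg_right h6 (by positivity)
        _ ≤ (|C| + 1) * ((2 * y : ℕ) : ℝ) / Real.log (y : ℝ) ^ 2 :=
            div_le_div_of_nonneg_left (by positivity) (by positivity) h7
    refine h5.trans ?_
    rw [div_le_div_iff₀ (by positivity) hly0]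
    push_cast
    have h8 : 4 * (|C| + 1) ≤ c1 * Real.log (y : ℝ) := by
      rw [div_le_iff₀ hc1] at hly
      linarith
    have h9 : 0 ≤ (y : ℝ) * Real.log (y : ℝ) := by positivity
    nlinarith [mul_le_mul_of_nonneg_right h8 h9]
  have h6 : c1 / 2 * y / Real.log y = c1 * y / Real.log y - c1 / 2 * y / Real.log y := by ring
  linarith

open Classical in
/-- a dyadic block contributes at least a constant -/
lemma blockI (hS : St_SMALL) (hL : ∃ C : ℝ, 0 < C ∧ ∀ᶠ y : ℕ in atTop, ∀ Y : ℕ, y ^ 3 ≤ Y → ∀ I : Finset ℕ, I ⊆ PR y →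
    ∑ n ∈ I, ∑ l ∈ (Ioc (y ^ 3) Y).filter (fun l => l.Prime ∧ l % n = 1), ((n : ℝ) - 1) / l ≤
      I.card * (Real.log (Real.log Y) - Real.log (Real.log y) + C) + C * y / Real.log y)
    (hE : St_EXP) (b : ℕ) (hb : 2 ≤ b) (C0 : ℝ)
    (hCNT : ∀ A : ℕ, ∃ C : ℝ, ∀ x : ℕ, 2 ≤ x →
      (((Icc 1 x).filter (fun n => (n.Prime ∧ n ≠ 2) ∧ ¬ (P b n ≤ C0 * Real.log n / n))).card : ℝ) ≤
        C * x / Real.log x ^ A) :
    ∃ c : ℝ, 0 < c ∧ ∀ᶠ y : ℕ in atTop, c ≤ ∑ n ∈ GI b C0 y, P b n := by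
  obtain ⟨C1, hC1, hS⟩ := hS
  obtain ⟨C2, hC2, hL⟩ := hL
  obtain ⟨c1, hc1, hM⟩ := card_GI b C0 hCNT
  set β : ℝ := Real.log (2 * Real.log b) with hβ
  set K : ℝ := C1 / c1 + C2 / c1 + C2 + β + 1 with hK
  refine ⟨c1 * Real.exp (-K - 2), by positivity, ?_⟩
  filter_upwards [hL, hM, eventually_ge_atTop 3] with y hL hM hy
  have hy0 : (0 : ℝ) < y := by exact_mod_cast (by omega : 0 < y)
  have hly : 0 < Real.log (y : ℝ) := Real.log_pos (by exact_mod_cast (by omega : 1 < y))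
  have hsub : GI b C0 y ⊆ PR y := filter_subset _ _
  have hPR : ∀ n ∈ GI b C0 y, n.Prime ∧ y < n ∧ n ≤ 2 * y := by
    intro n hn
    have hn := hsub hn
    unfold PR at hn
    rw [mem_filter, mem_Ioc] at hn
    exact ⟨hn.2, hn.1⟩
  have hyY : y ^ 3 ≤ b ^ (2 * y) := by
    calc y ^ 3 ≤ 4 ^ y := cube_le y (by omega)
      _ = 2 ^ (2 * y) := by rw [pow_mul]; norm_num
      _ ≤ b ^ (2 * y) := Nat.pow_le_pow_left hb _
  set M : ℝ := ((GI b C0 y).card : ℝ) with hMdef
  set S : ℕ → ℝ := fun n => ∑ l ∈ T b n, ((n : ℝ) - 1) / ((l : ℝ) - 1) with hSdef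
  set A : ℝ := Real.log y - Real.log (Real.log y) + K with hA
  have hb1 : (1 : ℝ) < b := by exact_mod_cast (by omega : 1 < b)
  have hlb : 0 < Real.log (b : ℝ) := Real.log_pos hb1
  have hloglog : Real.log (Real.log ((b ^ (2 * y) : ℕ) : ℝ)) = Real.log y + β := by
    push_cast
    rw [Real.log_pow, hβ]
    push_cast
    rw [← Real.log_mul hy0.ne' (by positivity)]
    congr 1
    ring
  have hsum : ∑ n ∈ GI b C0 y, S n ≤ M * A := by
    have h1 : ∑ n ∈ GI b C0 y, S n ≤ ∑ n ∈ GI b C0 y,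
        (∑ l ∈ (Icc 1 (y ^ 3)).filter (fun l => l.Prime ∧ l % n = 1), ((n : ℝ) - 1) / ((l : ℝ) - 1) +
        ∑ l ∈ (Ioc (y ^ 3) (b ^ (2 * y))).filter (fun l => l.Prime ∧ l % n = 1), ((n : ℝ) - 1) / l + 1) := by
      apply Finset.sum_le_sum
      intro n hn
      obtain ⟨h2, h3, h4⟩ := hPR n hn
      exact sum_T b y n hb hy h2 h4 h3
    rw [Finset.sum_add_distrib, Finset.sum_add_distrib, Finset.sum_const, nsmul_eq_mul, mul_one] at h1
    have h2 := hS y (by omega)
    have h2' : ∑ n ∈ GI b C0 y, ∑ l ∈ (Icc 1 (y ^ 3)).filter (fun l => l.Prime ∧ l % n = 1),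
        ((n : ℝ) - 1) / ((l : ℝ) - 1) ≤ C1 * y / Real.log y := by
      refine (Finset.sum_le_sum_of_subset_of_nonneg hsub ?_).trans h2
      intro n hn _
      unfold PR at hn
      rw [mem_filter, mem_Ioc] at hn
      have hn1 : (1 : ℝ) ≤ n := by exact_mod_cast hn.2.one_lt.le
      apply Finset.sum_nonneg
      intro l hl
      rw [mem_filter] at hl
      have hl1 : (1 : ℝ) < l := by exact_mod_cast hl.2.1.one_lt
      exact div_nonneg (by linarith) (by linarith)
    have h3 := hL (b ^ (2 * y)) hyY (GI b C0 y) hsub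
    rw [hloglog] at h3
    have h4 : (y : ℝ) / Real.log y ≤ M / c1 := by
      rw [le_div_iff₀ hc1]
      calc (y : ℝ) / Real.log y * c1 = c1 * y / Real.log y := by ring
        _ ≤ M := hM
    have h5 : C1 * (y : ℝ) / Real.log y ≤ M * (C1 / c1) := by
      calc C1 * (y : ℝ) / Real.log y = C1 * (y / Real.log y) := by ring
        _ ≤ C1 * (M / c1) := mul_le_mul_of_nonneg_left h4 hC1.le
        _ = M * (C1 / c1) := by ring
    have h6 : C2 * (y : ℝ) / Real.log y ≤ M * (C2 / c1) := by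
      calc C2 * (y : ℝ) / Real.log y = C2 * (y / Real.log y) := by ring
        _ ≤ C2 * (M / c1) := mul_le_mul_of_nonneg_left h4 hC2.le
        _ = M * (C2 / c1) := by ring
    have h7 : M * A = M * (C1 / c1) + (M * (Real.log y + β - Real.log (Real.log y) + C2) + M * (C2 / c1)) + M := by
      rw [hA, hK]
      ring
    rw [h7]
    linarith
  have hM0 : 0 ≤ M := Nat.cast_nonneg _
  calc c1 * Real.exp (-K - 2) ≤ M * (Real.exp (-A) * Real.exp (-2)) := by
        have h1 : Real.exp (-A) = Real.log y / y * Real.exp (-K) := by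
          rw [hA, show -(Real.log (y : ℝ) - Real.log (Real.log y) + K) = -Real.log y + Real.log (Real.log y) + -K by ring,
            Real.exp_add, Real.exp_add, Real.exp_neg, Real.exp_log hy0, Real.exp_log hly]
          ring
        have h2 : Real.exp (-K - 2) = Real.exp (-K) * Real.exp (-2) := by
          rw [← Real.exp_add]
          congr 1
        rw [h1, h2]
        have h3 : c1 ≤ M * (Real.log y / y) := by
          rw [mul_div_assoc', le_div_iff₀ hy0]
          rw [div_le_iff₀ hly] at hM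
          exact hM
        have h4 : 0 < Real.exp (-K) * Real.exp (-2) := by positivity
        calc c1 * (Real.exp (-K) * Real.exp (-2)) ≤ (M * (Real.log y / y)) * (Real.exp (-K) * Real.exp (-2)) :=
              mul_le_mul_of_nonneg_right h3 h4.le
          _ = M * (Real.log y / y * Real.exp (-K) * Real.exp (-2)) := by ring
    _ ≤ ∑ n ∈ GI b C0 y, Real.exp (-A) * Real.exp (-2) * (1 + A - S n) := by
        rw [← Finset.mul_sum, Finset.sum_sub_distrib, Finset.sum_const, nsmul_eq_mul]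
        have h5 : M ≤ M * (1 + A) - ∑ n ∈ GI b C0 y, S n := by linarith
        have h6 : 0 ≤ Real.exp (-A) * Real.exp (-2) := by positivity
        calc M * (Real.exp (-A) * Real.exp (-2)) = Real.exp (-A) * Real.exp (-2) * M := by ring
          _ ≤ Real.exp (-A) * Real.exp (-2) * (M * (1 + A) - ∑ n ∈ GI b C0 y, S n) :=
              mul_le_mul_of_nonneg_left h5 h6
    _ ≤ ∑ n ∈ GI b C0 y, P b n := by
        apply Finset.sum_le_sum
        intro n hn
        obtain ⟨h2, h3, h4⟩ := hPR n hn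
        refine le_trans ?_ (hE b n h2 (by omega))
        have h5 : Real.exp (-(∑ l ∈ T b n, ((n : ℝ) - 1) / ((l : ℝ) - 1)) - 2) =
            Real.exp (-A) * Real.exp (-2) * Real.exp (A - S n) := by
          rw [← Real.exp_add, ← Real.exp_add]
          congr 1
          rw [hSdef]
          ring
        rw [h5]
        apply mul_le_mul_of_nonneg_left _ (by positivity)
        have := Real.add_one_le_exp (A - S n)
        linarith

open Classical in
/-- LOWI from SMALL, LARGEI (written out) and EXP -/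
theorem LOWI_core (hS : St_SMALL)
    (hL : ∃ C : ℝ, 0 < C ∧ ∀ᶠ y : ℕ in atTop, ∀ Y : ℕ, y ^ 3 ≤ Y → ∀ I : Finset ℕ, I ⊆ PR y →
    ∑ n ∈ I, ∑ l ∈ (Ioc (y ^ 3) Y).filter (fun l => l.Prime ∧ l % n = 1), ((n : ℝ) - 1) / l ≤
      I.card * (Real.log (Real.log Y) - Real.log (Real.log y) + C) + C * y / Real.log y)
    (hE : St_EXP) : St_LOWI := by
  intro b hb C0 hC0 hCNT
  obtain ⟨c, hc, hblock⟩ := blockI hS hL hE b hb C0 hCNT
  obtain ⟨y0, hy0⟩ := eventually_atTop.1 hblock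
  have hP : ∀ n : ℕ, n.Prime → n ≠ 2 → 0 ≤ P b n := fun n h1 h2 => (Real.exp_pos _).le.trans (hE b n h1 h2)
  set F : ℕ → ℝ := fun x => ES b (Sg b C0) x with hF
  have hFdef : ∀ x, F x = ∑ n ∈ (Icc 1 x).filter (fun n => n ∈ Sg b C0), P b n := by
    intro x
    rw [hF]
    unfold ES
    apply Finset.sum_congr _ (fun _ _ => rfl)
    ext n
    simp only [mem_filter]
  set j0 : ℕ := y0 + 2 with hj0
  have hmono : ∀ x y : ℕ, x ≤ y → F x ≤ F y := by
    intro x y hxy
    rw [hFdef, hFdef]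
    apply Finset.sum_le_sum_of_subset_of_nonneg
    · intro n hn
      rw [mem_filter, mem_Icc] at hn ⊢
      exact ⟨⟨hn.1.1, hn.1.2.trans hxy⟩, hn.2⟩
    · intro n hn _
      rw [mem_filter] at hn
      exact hP n hn.2.1.1 hn.2.1.2
  have hstep : ∀ y : ℕ, y0 ≤ y → 2 ≤ y → F y + c ≤ F (2 * y) := by
    intro y h1 h2
    have h3 := hy0 y h1
    have h4 : F (2 * y) = F y + ∑ n ∈ GI b C0 y, P b n := by
      rw [hFdef, hFdef, ← Finset.sum_union]
      · apply Finset.sum_congr _ fun _ _ => rfl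
        ext n
        unfold GI PR
        rw [mem_union, mem_filter, mem_filter, mem_filter, mem_filter, mem_Icc, mem_Icc, mem_Ioc]
        constructor
        · rintro ⟨⟨h5, h6⟩, h7⟩
          by_cases h9 : n ≤ y
          · exact Or.inl ⟨⟨h5, h9⟩, h7⟩
          · exact Or.inr ⟨⟨⟨by omega, h6⟩, h7.1.1⟩, h7⟩
        · rintro (⟨⟨h5, h6⟩, h7⟩ | ⟨⟨⟨h5, h6⟩, h7⟩, h8⟩)
          · exact ⟨⟨h5, by omega⟩, h7⟩
          · exact ⟨⟨by omega, h6⟩, h8⟩
      · rw [Finset.disjoint_left]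
        intro n h5 h6
        unfold GI PR at h6
        rw [mem_filter, mem_Icc] at h5
        rw [mem_filter, mem_filter, mem_Ioc] at h6
        omega
    linarith
  have hpow : ∀ j : ℕ, c * j ≤ F (2 ^ (j0 + j)) := by
    intro j
    induction j with
    | zero =>
      simp only [Nat.cast_zero, mul_zero]
      rw [hFdef]
      apply Finset.sum_nonneg
      intro n hn
      rw [mem_filter] at hn
      exact hP n hn.2.1.1 hn.2.1.2
    | succ j ih =>
      have h1 : 2 ^ (j0 + (j + 1)) = 2 * 2 ^ (j0 + j) := by ring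
      have h2 : y0 + 2 < 2 ^ (j0 + j) := by
        calc y0 + 2 ≤ j0 + j := by omega
          _ < 2 ^ (j0 + j) := Nat.lt_two_pow_self
      have h3 := hstep (2 ^ (j0 + j)) (by omega) (by omega)
      rw [h1]
      push_cast
      linarith
  refine ⟨c / 2, by positivity, ?_⟩
  filter_upwards [eventually_ge_atTop (2 ^ (8 * j0 + 8))] with x hx
  have hx0 : x ≠ 0 := by
    have := Nat.one_le_two_pow (n := 8 * j0 + 8)
    omega
  set j := Nat.log 2 x with hj
  have hj1 : 2 ^ j ≤ x := Nat.pow_log_le_self 2 hx0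
  have hj2 : x < 2 ^ (j + 1) := Nat.lt_pow_succ_log_self (by norm_num) x
  have hj3 : 8 * j0 + 8 ≤ j := by
    rw [hj]
    exact (Nat.le_log_iff_pow_le (by norm_num) hx0).2 hx
  have h1 := hpow (j - j0)
  have h2 : j0 + (j - j0) = j := by omega
  rw [h2] at h1
  have h3 := h1.trans (hmono _ _ hj1)
  have h4 : Real.log x ≤ ((j : ℝ) + 1) * 0.7 := by
    have h5 : Real.log (x : ℝ) ≤ Real.log (((2 ^ (j + 1) : ℕ)) : ℝ) :=
      Real.log_le_log (by exact_mod_cast Nat.pos_of_ne_zero hx0) (by exact_mod_cast hj2.le)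
    push_cast at h5
    rw [Real.log_pow] at h5
    push_cast at h5
    have h6 := Real.log_two_lt_d9
    have h7 : (0 : ℝ) ≤ (j : ℝ) + 1 := by positivity
    nlinarith
  have h5 : ((j - j0 : ℕ) : ℝ) = (j : ℝ) - j0 := by rw [Nat.cast_sub (by omega)]
  rw [h5] at h3
  have h6 : (8 : ℝ) * j0 + 8 ≤ j := by exact_mod_cast hj3
  have h7 : F x = ES b (Sg b C0) x := rfl
  rw [← h7]
  nlinarith

end Pool.Agent.L5helper84.RO
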