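import Pool.Agent.L5helper84.RO.LOWI
import Pool.Agent.L5helper2.RO.Large
import Pool.Agent.L5helper2.RO.SMALL
import Pool.Agent.L5helper2.RO.EXP

set_option autoImplicit false

namespace Pool.Agent.L5helper84.RO

open Pool.Agent.L5helper2.RO

theorem LOWI_thm : St_LOWI := LOWI_core SMALL_thm LARGEI_thm EXP_thm

end Pool.Agent.L5helper84.RO
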