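import Pool.Agent.L5helper2.RO.Defs3
import Pool.Agent.Helper601.Mertens

set_option autoImplicit false

/-! Random orders (helper2): the upper bound by Mertens. -/

namespace Pool.Agent.L5helper84.RO

open Finset Filter
open scoped Topology
open Pool.Agent.L5helper2.RO

theorem UPI_thm : St_UPI := by
  classical
  intro b C0 hC0
  obtain ⟨C1, hC1⟩ := Pool.Agent.Helper601.Mertens.mertens_log
  have hC10 : 0 ≤ C1 := (abs_nonneg _).trans (hC1 1 le_rfl)
  have hl2 : (0 : ℝ) < Real.log 2 := Real.log_pos (by norm_num)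
  refine ⟨C0 * (1 + C1 / Real.log 2), fun x hx => ?_⟩
  have hlx : Real.log 2 ≤ Real.log (x : ℝ) := Real.log_le_log (by norm_num) (by exact_mod_cast hx)
  have h1 : ES b (Sg b C0) x ≤ ∑ n ∈ (Icc 1 x).filter (fun n => n ∈ Sg b C0), C0 * (Real.log n / n) := by
    have e : ES b (Sg b C0) x = ∑ n ∈ (Icc 1 x).filter (fun n => n ∈ Sg b C0), P b n := by
      unfold ES
      apply Finset.sum_congr _ (fun _ _ => rfl)
      ext n
      simp only [mem_filter]
    rw [e]
    apply Finset.sum_le_sum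
    intro n hn
    have h2 := (mem_filter.1 hn).2
    have h3 := h2.2
    rw [mul_div_assoc] at h3
    exact h3
  have h2 : ∑ n ∈ (Icc 1 x).filter (fun n => n ∈ Sg b C0), C0 * (Real.log n / n) ≤
      ∑ n ∈ (Icc 1 x).filter Nat.Prime, C0 * (Real.log n / n) := by
    apply Finset.sum_le_sum_of_subset_of_nonneg
    · intro n hn
      rw [mem_filter] at hn ⊢
      exact ⟨hn.1, hn.2.1.1⟩
    · intro n _ _
      exact mul_nonneg hC0.le (div_nonneg (Real.log_natCast_nonneg n) (Nat.cast_nonneg n))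
  have h3 := hC1 x (by omega)
  have h4 := (abs_le.1 h3).2
  have h6 : ∑ n ∈ (Icc 1 x).filter Nat.Prime, C0 * (Real.log n / n) =
      C0 * ∑ n ∈ (Icc 1 x).filter Nat.Prime, Real.log n / n := by rw [Finset.mul_sum]
  have h5 : C1 ≤ C1 / Real.log 2 * Real.log x := by
    rw [div_mul_eq_mul_div, le_div_iff₀ hl2]
    exact mul_le_mul_of_nonneg_left hlx hC10
  calc ES b (Sg b C0) x ≤ C0 * ∑ n ∈ (Icc 1 x).filter Nat.Prime, Real.log n / n := (h1.trans h2).trans h6.le
    _ ≤ C0 * (Real.log x + C1 / Real.log 2 * Real.log x) := by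
        apply mul_le_mul_of_nonneg_left _ hC0.le
        linarith
    _ = C0 * (1 + C1 / Real.log 2) * Real.log x := by ring

end Pool.Agent.L5helper84.RO
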